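import Pool.Agent.H961R2.Lev.Stubs

open MeasureTheory Set Filter Topology InnerProductSpace Complex

namespace H961Lev

theorem L2_ratio {s d t t' : ℝ} (hs : 0 < s) (hd : 0 ≤ d) (h : |t - t'| ≤ d) :
    t ^ 2 + s ^ 2 ≤ (1 + d / s + d ^ 2 / s ^ 2) * (t' ^ 2 + s ^ 2) := by
  have h1 : t ^ 2 ≤ t' ^ 2 + 2 * |t'| * d + d ^ 2 := by
    have : |t| ≤ |t'| + d := by
      have := abs_sub_abs_le_abs_sub t t'
      linarith
    calc t ^ 2 = |t| ^ 2 := (sq_abs t).symm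
      _ ≤ (|t'| + d) ^ 2 := by gcongr
      _ = _ := by rw [add_sq, sq_abs]
  have h2 : 2 * |t'| * d ≤ d / s * (t' ^ 2 + s ^ 2) := by
    rw [div_mul_eq_mul_div, le_div_iff₀ hs]
    have := sq_abs t'
    nlinarith [mul_nonneg hd (sq_nonneg (|t'| - s))]
  have h3 : d ^ 2 ≤ d ^ 2 / s ^ 2 * (t' ^ 2 + s ^ 2) := by
    rw [div_mul_eq_mul_div, le_div_iff₀ (by positivity)]
    nlinarith [sq_nonneg (d * t')]
  nlinarith

noncomputable def L2k (s b t : ℝ) : ℝ := 1 / (t ^ 2 + s ^ 2) - 1 / (t ^ 2 + b ^ 2)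

theorem L2k_eq {s b : ℝ} (hs : 0 < s) (hb : s < b) (t : ℝ) :
    L2k s b t = (b ^ 2 - s ^ 2) / ((t ^ 2 + s ^ 2) * (t ^ 2 + b ^ 2)) := by
  have hb0 : 0 < b := hs.trans hb
  unfold L2k
  rw [div_sub_div _ _ (by positivity) (by positivity)]
  congr 1
  ring

theorem L2k_nonneg {s b : ℝ} (hs : 0 < s) (hb : s < b) (t : ℝ) : 0 ≤ L2k s b t := by
  rw [L2k_eq hs hb]
  have : 0 ≤ b ^ 2 - s ^ 2 := by nlinarith
  positivity

theorem L2k_ratio {s b d t t' : ℝ} (hs : 0 < s) (hb : s < b) (hd : 0 ≤ d) (h : |t - t'| ≤ d) :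
    L2k s b t' ≤ (1 + d / s + d ^ 2 / s ^ 2) ^ 2 * L2k s b t := by
  have hb0 : 0 < b := hs.trans hb
  have h0 : 0 ≤ b ^ 2 - s ^ 2 := by nlinarith
  have h1 := L2_ratio hs hd h
  have h2 : t ^ 2 + b ^ 2 ≤ (1 + d / s + d ^ 2 / s ^ 2) * (t' ^ 2 + b ^ 2) := by
    refine (L2_ratio hb0 hd h).trans ?_
    have e1 : d / b ≤ d / s := by gcongr
    have e2 : d ^ 2 / b ^ 2 ≤ d ^ 2 / s ^ 2 := by gcongr
    gcongr
  have hq : 0 ≤ 1 + d / s + d ^ 2 / s ^ 2 := by positivity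
  rw [L2k_eq hs hb, L2k_eq hs hb, mul_div_assoc', div_le_div_iff₀ (by positivity) (by positivity)]
  have h3 : (t ^ 2 + s ^ 2) * (t ^ 2 + b ^ 2) ≤
      ((1 + d / s + d ^ 2 / s ^ 2) * (t' ^ 2 + s ^ 2)) *
        ((1 + d / s + d ^ 2 / s ^ 2) * (t' ^ 2 + b ^ 2)) := by gcongr
  calc (b ^ 2 - s ^ 2) * ((t ^ 2 + s ^ 2) * (t ^ 2 + b ^ 2)) ≤ (b ^ 2 - s ^ 2) *
      (((1 + d / s + d ^ 2 / s ^ 2) * (t' ^ 2 + s ^ 2)) *
        ((1 + d / s + d ^ 2 / s ^ 2) * (t' ^ 2 + b ^ 2))) := by gcongr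
    _ = _ := by ring

theorem L2_int1 {s : ℝ} (hs : 0 < s) : Integrable (fun t : ℝ => 1 / (t ^ 2 + s ^ 2)) := by
  have h := (integrable_inv_one_add_sq.comp_div hs.ne').const_mul ((s ^ 2)⁻¹)
  refine h.congr (Eventually.of_forall fun t => ?_)
  simp only
  rw [div_pow]
  field_simp
  rw [add_comm]

theorem L2k_int {s b : ℝ} (hs : 0 < s) (hb : s < b) : Integrable (L2k s b) :=
  (L2_int1 hs).sub (L2_int1 (hs.trans hb))

/-- modulus of continuity of a continuous periodic function -/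
theorem L2_unif {G : ℝ → ℝ} (hG : Continuous G) (hp : ∀ x, G (x + 1) = G x) {w : ℝ} (hw : 0 < w) :
    ∃ δ : ℝ, 0 < δ ∧ ∀ x y : ℝ, |x - y| ≤ δ → |G x - G y| ≤ w := by
  have h1 : UniformContinuousOn G (Icc (-1 : ℝ) 2) :=
    isCompact_Icc.uniformContinuousOn_of_continuous hG.continuousOn
  rw [Metric.uniformContinuousOn_iff_le] at h1
  obtain ⟨δ, hδ, h2⟩ := h1 w hw
  refine ⟨min δ 1, by positivity, fun x y hxy => ?_⟩
  have hper : Function.Periodic G 1 := hp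
  have hGn : ∀ z : ℝ, G (z - ⌊x⌋) = G z := fun z => by
    have := hper.sub_zsmul_eq (x := z) ⌊x⌋
    simpa using this
  have hx1 := Int.floor_le x
  have hx2 := Int.lt_floor_add_one x
  have hxy1 : |x - y| ≤ δ := hxy.trans (min_le_left _ _)
  have hxy2 : |x - y| ≤ 1 := hxy.trans (min_le_right _ _)
  rw [abs_le] at hxy2
  have := h2 (x - ⌊x⌋) ⟨by linarith, by linarith⟩ (y - ⌊x⌋)
    ⟨by linarith [hxy2.2], by linarith [hxy2.1]⟩ (by
      rw [Real.dist_eq]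
      have : x - ⌊x⌋ - (y - ⌊x⌋) = x - y := by ring
      rw [this]; exact hxy1)
  rw [Real.dist_eq, hGn, hGn] at this
  exact this

theorem L2_bdd {G : ℝ → ℝ} (hG : Continuous G) (hp : ∀ x, G (x + 1) = G x) :
    ∃ B : ℝ, ∀ x, ‖G x‖ ≤ B := by
  have hper : Function.Periodic G 1 := hp
  obtain ⟨B, hB⟩ := (hper.isBounded_of_continuous one_ne_zero hG).exists_norm_le
  exact ⟨B, fun x => hB _ (mem_range_self x)⟩

theorem T_L2 : S_L2 := by
  intro G hG hp hG0 s b e hs hb he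
  obtain ⟨B, hB⟩ := L2_bdd hG hp
  have hk := L2k_int hs hb
  have hkG : Integrable (fun t => L2k s b t * G t) :=
    hk.mul_bdd hG.aestronglyMeasurable (Eventually.of_forall hB)
  set I0 : ℝ := ∫ t, L2k s b t with hI0
  set I1 : ℝ := ∫ t, L2k s b t * G t with hI1
  have hI0n : 0 ≤ I0 := integral_nonneg (fun t => L2k_nonneg hs hb t)
  have hI1n : 0 ≤ I1 := integral_nonneg (fun t => mul_nonneg (L2k_nonneg hs hb t) (hG0 t))
  set w : ℝ := e / (4 * (I0 + 1)) with hw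
  have hw0 : 0 < w := by positivity
  obtain ⟨δ, hδ, hunif⟩ := L2_unif hG hp hw0
  -- the factor
  have hlim : Tendsto (fun N : ℕ => (1 + (1 / (N : ℝ)) / s + (1 / (N : ℝ)) ^ 2 / s ^ 2) ^ 2 - 1)
      atTop (𝓝 0) := by
    have h0 : Tendsto (fun N : ℕ => (1 / (N : ℝ))) atTop (𝓝 0) :=
      tendsto_one_div_atTop_nhds_zero_nat
    have h1 := (((h0.div_const s).const_add 1).add ((h0.pow 2).div_const (s ^ 2))).pow 2
    have h2 := h1.sub_const 1
    simpa using h2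
  have hev1 : ∀ᶠ N : ℕ in atTop,
      (1 + (1 / (N : ℝ)) / s + (1 / (N : ℝ)) ^ 2 / s ^ 2) ^ 2 - 1 < min 1 (e / (2 * (I1 + 1))) :=
    (tendsto_order.1 hlim).2 _ (by positivity)
  have hev2 : ∀ᶠ N : ℕ in atTop, (1 / (N : ℝ)) < δ :=
    (tendsto_order.1 tendsto_one_div_atTop_nhds_zero_nat).2 _ hδ
  obtain ⟨N₀, hN₀⟩ := eventually_atTop.1 ((hev1.and hev2).and (eventually_gt_atTop 0))
  refine ⟨N₀, fun N hN => ?_⟩
  obtain ⟨⟨hq, hNδ⟩, hNpos⟩ := hN₀ N hN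
  have hNr : (0 : ℝ) < N := by exact_mod_cast hNpos
  set d : ℝ := 1 / (N : ℝ) with hd
  have hd0 : 0 < d := by positivity
  set q : ℝ := (1 + d / s + d ^ 2 / s ^ 2) ^ 2 with hqdef
  have hq0 : 0 ≤ q := by positivity
  have hint : Integrable (fun t => q * (L2k s b t * G t + w * L2k s b t)) :=
    (hkG.add (hk.const_mul w)).const_mul q
  have hintv : ∫ t, q * (L2k s b t * G t + w * L2k s b t) = q * (I1 + w * I0) := by
    rw [integral_const_mul, integral_add hkG (hk.const_mul w), integral_const_mul]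
  have hU : (⋃ m : ℤ, Ioc (m • d) ((m + 1) • d)) = (univ : Set ℝ) := iUnion_Ioc_zsmul hd0
  have hsum := hasSum_integral_iUnion (μ := volume)
    (f := fun t => q * (L2k s b t * G t + w * L2k s b t))
    (s := fun m : ℤ => Ioc (m • d) ((m + 1) • d)) (fun m => measurableSet_Ioc)
    (pairwise_disjoint_Ioc_zsmul d) (by rw [hU]; exact hint.integrableOn)
  rw [hU, setIntegral_univ, hintv] at hsum
  -- term bound
  have hterm : ∀ m : ℤ, N * ((1 / ((s * N) ^ 2 + (m : ℝ) ^ 2) - 1 / ((b * N) ^ 2 + (m : ℝ) ^ 2)) *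
        G ((m : ℝ) / N)) ≤ ∫ t in Ioc (m • d) ((m + 1) • d),
          q * (L2k s b t * G t + w * L2k s b t) := by
    intro m
    have hb0 : 0 < b := hs.trans hb
    have e1 : N * ((1 / ((s * N) ^ 2 + (m : ℝ) ^ 2) - 1 / ((b * N) ^ 2 + (m : ℝ) ^ 2)) *
        G ((m : ℝ) / N)) = d * (L2k s b ((m : ℝ) / N) * G ((m : ℝ) / N)) := by
      have e2 : (1 / ((s * N) ^ 2 + (m : ℝ) ^ 2) - 1 / ((b * N) ^ 2 + (m : ℝ) ^ 2)) =
          d ^ 2 * L2k s b ((m : ℝ) / N) := by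
        unfold L2k
        rw [hd]
        have : ∀ c : ℝ, 0 < c → 1 / ((c * N) ^ 2 + (m : ℝ) ^ 2) =
            (1 / (N : ℝ)) ^ 2 * (1 / (((m : ℝ) / N) ^ 2 + c ^ 2)) := by
          intro c hc
          have h1 : (0 : ℝ) < (c * N) ^ 2 + (m : ℝ) ^ 2 := by positivity
          have h2 : ((m : ℝ) / N) ^ 2 + c ^ 2 = ((c * N) ^ 2 + (m : ℝ) ^ 2) / (N : ℝ) ^ 2 := by
            field_simp; ring
          rw [h2]
          field_simp
        rw [this s hs, this b hb0]; ring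
      rw [e2]
      have : (N : ℝ) * d = 1 := by rw [hd]; field_simp
      calc (N : ℝ) * (d ^ 2 * L2k s b (↑m / ↑N) * G (↑m / ↑N)) =
          ((N : ℝ) * d) * (d * (L2k s b (↑m / ↑N) * G (↑m / ↑N))) := by ring
        _ = _ := by rw [this, one_mul]
    rw [e1]
    have hvol : volume.real (Ioc (m • d) ((m + 1) • d)) = d := by
      rw [Real.volume_real_Ioc_of_le (by
        rw [add_smul, one_smul]; linarith)]
      rw [add_smul, one_smul]; ring
    have e3 : d * (L2k s b ((m : ℝ) / N) * G ((m : ℝ) / N)) =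
        ∫ t in Ioc (m • d) ((m + 1) • d), (L2k s b ((m : ℝ) / N) * G ((m : ℝ) / N)) := by
      rw [setIntegral_const, hvol, smul_eq_mul]
    rw [e3]
    apply setIntegral_mono_on (integrableOn_const (by
      rw [Real.volume_Ioc]; exact ENNReal.ofReal_ne_top)) hint.integrableOn measurableSet_Ioc
    intro t ht
    have hmd : (m : ℝ) / N = m • d := by rw [zsmul_eq_mul, hd]; ring
    have htd : |t - (m : ℝ) / N| ≤ d := by
      rw [hmd]
      rw [add_smul, one_smul] at ht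
      rw [abs_le]; constructor <;> linarith [ht.1, ht.2]
    have f1 := L2k_ratio hs hb hd0.le htd
    have f2 : G ((m : ℝ) / N) ≤ G t + w := by
      have := hunif t ((m : ℝ) / N) (htd.trans hNδ.le)
      rw [abs_le] at this
      linarith [this.1]
    have f3 := L2k_nonneg hs hb t
    have f4 := hG0 ((m : ℝ) / N)
    calc L2k s b ((m : ℝ) / N) * G ((m : ℝ) / N) ≤ (q * L2k s b t) * (G t + w) := by gcongr
      _ = _ := by ring
  have hnn : ∀ m : ℤ, 0 ≤ N * ((1 / ((s * N) ^ 2 + (m : ℝ) ^ 2) -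
      1 / ((b * N) ^ 2 + (m : ℝ) ^ 2)) * G ((m : ℝ) / N)) := by
    intro m
    have : 1 / ((b * N) ^ 2 + (m : ℝ) ^ 2) ≤ 1 / ((s * N) ^ 2 + (m : ℝ) ^ 2) := by
      gcongr
    have h1 := hG0 ((m : ℝ) / N)
    have h2 : 0 ≤ 1 / ((s * N) ^ 2 + (m : ℝ) ^ 2) - 1 / ((b * N) ^ 2 + (m : ℝ) ^ 2) := by linarith
    positivity
  have hsm : Summable (fun m : ℤ => N * ((1 / ((s * N) ^ 2 + (m : ℝ) ^ 2) -
      1 / ((b * N) ^ 2 + (m : ℝ) ^ 2)) * G ((m : ℝ) / N))) :=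
    Summable.of_nonneg_of_le hnn hterm hsum.summable
  have hle : N * ∑' m : ℤ, (1 / ((s * N) ^ 2 + (m : ℝ) ^ 2) -
      1 / ((b * N) ^ 2 + (m : ℝ) ^ 2)) * G ((m : ℝ) / N) ≤ q * (I1 + w * I0) := by
    rw [← tsum_mul_left, ← hsum.tsum_eq]
    exact hsm.tsum_le_tsum hterm hsum.summable
  refine hle.trans ?_
  have hfin : (∫ t : ℝ, (1 / (t ^ 2 + s ^ 2) - 1 / (t ^ 2 + b ^ 2)) * G t) = I1 := rfl
  rw [hfin]
  have hq1 : q - 1 ≤ 1 := hq.le.trans (min_le_left _ _)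
  have hq2 : q - 1 ≤ e / (2 * (I1 + 1)) := hq.le.trans (min_le_right _ _)
  have g1 : (q - 1) * I1 ≤ e / 2 := by
    calc (q - 1) * I1 ≤ e / (2 * (I1 + 1)) * I1 := by gcongr
      _ ≤ e / (2 * (I1 + 1)) * (I1 + 1) := by gcongr; linarith
      _ = e / 2 := by field_simp
  have g2 : w * I0 ≤ e / 4 := by
    calc w * I0 ≤ w * (I0 + 1) := by gcongr; linarith
      _ = e / 4 := by rw [hw]; field_simp
  have g3 : 0 ≤ w * I0 := by positivity
  nlinarith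

end H961Lev
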